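import Pool.Agent.GM53.Defs

/-!
# PM40/Rand: independent coins hit all but finitely many of a sequence of rich finite sets
-/

set_option autoImplicit false

namespace Pool.Agent.PM40

open MeasureTheory ProbabilityTheory Filter Topology Finset Pool.Agent.GM53

instance isProb (z : ℕ → ℕ) (m : ℕ) : IsProbabilityMeasure (coin z m) := by
  constructor
  unfold coin
  have h0 := prob_nonneg z m
  have h1 := prob_le_one z m
  simp only [Measure.coe_add, Measure.coe_smul, Pi.add_apply, Pi.smul_apply, measure_univ,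
    smul_eq_mul, mul_one]
  rw [← ENNReal.ofReal_add h0 (by linarith), add_sub_cancel, ENNReal.ofReal_one]

theorem coin_false (z : ℕ → ℕ) (m : ℕ) : coin z m {false} = ENNReal.ofReal (1 - prob z m) := by
  unfold coin
  simp

/-- the probability that no element of `S` is in the random set -/
theorem none_prob (z : ℕ → ℕ) (S : Finset ℕ) :
    Measure.infinitePi (coin z) {ω : ℕ → Bool | ∀ m ∈ S, ω m = false} ≤
      ENNReal.ofReal (Real.exp (-∑ m ∈ S, prob z m)) := by
  have e : {ω : ℕ → Bool | ∀ m ∈ S, ω m = false} =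
      Set.pi (S : Set ℕ) (fun _ => ({false} : Set Bool)) := by
    ext ω
    simp [Set.mem_pi]
  rw [e, Measure.infinitePi_pi _ (fun m _ => measurableSet_singleton false),
    prod_congr rfl fun m _ => coin_false z m,
    ← ENNReal.ofReal_prod_of_nonneg fun m _ => sub_nonneg.2 (prob_le_one z m)]
  refine ENNReal.ofReal_le_ofReal ?_
  rw [← sum_neg_distrib, Real.exp_sum]
  refine prod_le_prod (fun m _ => sub_nonneg.2 (prob_le_one z m)) fun m _ => ?_
  have := Real.add_one_le_exp (-prob z m)
  linarith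

/-- Borel-Cantelli -/
theorem ae_hit (z : ℕ → ℕ) (S : ℕ → Finset ℕ)
    (h : ∀ᶠ n : ℕ in atTop, 2 * Real.log n ≤ ∑ m ∈ S n, prob z m) :
    ∀ᵐ ω ∂(Measure.infinitePi (coin z)), ∀ᶠ n : ℕ in atTop, ∃ m ∈ S n, ω m = true := by
  obtain ⟨N, hN⟩ := eventually_atTop.1 h
  have hb : ∀ n, Measure.infinitePi (coin z) {ω : ℕ → Bool | N + 1 ≤ n ∧ ∀ m ∈ S n, ω m = false} ≤
      ENNReal.ofReal (1 / (n : ℝ) ^ 2) := by
    intro n
    by_cases hn : N + 1 ≤ n
    · have e : {ω : ℕ → Bool | N + 1 ≤ n ∧ ∀ m ∈ S n, ω m = false} =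
          {ω : ℕ → Bool | ∀ m ∈ S n, ω m = false} := by
        ext ω
        simp [hn]
      rw [e]
      refine (none_prob z (S n)).trans (ENNReal.ofReal_le_ofReal ?_)
      have h1 := hN n (by omega)
      have hn0 : (0 : ℝ) < n := by
        have : 0 < n := by omega
        exact_mod_cast this
      calc Real.exp (-∑ m ∈ S n, prob z m) ≤ Real.exp (-(2 * Real.log n)) :=
            Real.exp_le_exp.2 (neg_le_neg h1)
        _ = 1 / (n : ℝ) ^ 2 := by
            rw [Real.exp_neg, show 2 * Real.log (n : ℝ) = Real.log ((n : ℝ) ^ 2) by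
              rw [Real.log_pow]; norm_num, Real.exp_log (by positivity), one_div]
    · have e : {ω : ℕ → Bool | N + 1 ≤ n ∧ ∀ m ∈ S n, ω m = false} = ∅ := by
        ext ω
        simp [hn]
      rw [e, measure_empty]
      exact zero_le
  have hs : ∑' n, Measure.infinitePi (coin z)
      {ω : ℕ → Bool | N + 1 ≤ n ∧ ∀ m ∈ S n, ω m = false} ≠ ⊤ := by
    refine ne_top_of_le_ne_top ?_ (ENNReal.tsum_le_tsum hb)
    rw [← ENNReal.ofReal_tsum_of_nonneg (fun n => by positivity)
      (Real.summable_one_div_nat_pow.2 (by norm_num))]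
    exact ENNReal.ofReal_ne_top
  have h1 := ae_eventually_notMem hs
  filter_upwards [h1] with ω hω
  filter_upwards [hω, eventually_ge_atTop (N + 1)] with n hn hnN
  by_contra hc
  push Not at hc
  refine hn ⟨hnN, fun m hm => ?_⟩
  have := hc m hm
  simpa using this

end Pool.Agent.PM40
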