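import Pool.Agent.PM40.Part
import Pool.Agent.PM40.Rand

/-!
# PM40/Main: MP_caf74c_nt in the random models of the primes
-/

set_option autoImplicit false

namespace Pool.Agent.PM40

open MeasureTheory ProbabilityTheory Filter Topology Finset Pool.Agent.GM53

theorem one_le_mert (y : ℕ) : 1 ≤ mert y := by
  unfold mert
  refine Finset.one_le_prod fun p hp => ?_
  have h2 : 2 ≤ p := (mem_filter.1 hp).2.two_le
  have h3 : (2 : ℝ) ≤ p := by exact_mod_cast h2
  have h4 : 1 / (p : ℝ) ≤ 1 / 2 := one_div_le_one_div_of_le (by norm_num) h3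
  have h5 : 0 < 1 / (p : ℝ) := by positivity
  exact (one_le_inv₀ (by linarith)).2 (by linarith)

theorem prob_ge {z : ℕ → ℕ} {m : ℕ} {X : ℝ} (h3 : 3 ≤ m) (hX : (m : ℝ) ≤ X)
    (hc : m.Coprime (primorial (z m))) : 1 / Real.log X ≤ prob z m := by
  have hm3 : (3 : ℝ) ≤ m := by exact_mod_cast h3
  have hl1 : 1 ≤ Real.log m := by
    rw [Real.le_log_iff_exp_le (by linarith)]
    have := Real.exp_one_lt_d9
    linarith
  have hlX : Real.log m ≤ Real.log X := Real.log_le_log (by linarith) hX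
  unfold prob
  rw [if_pos hc]
  refine le_min ?_ ?_
  · rw [div_le_one (by linarith)]
    linarith
  · exact div_le_div₀ (by linarith [one_le_mert (z m)]) (one_le_mert (z m)) (by linarith) hlX

theorem sum_ge {z : ℕ → ℕ} {S : Finset ℕ} {X : ℝ} (h : ∀ m ∈ S, 3 ≤ m ∧ (m : ℝ) ≤ X ∧
    m.Coprime (primorial (z m))) : (S.card : ℝ) / Real.log X ≤ ∑ m ∈ S, prob z m := by
  have h1 : ∑ _m ∈ S, 1 / Real.log X ≤ ∑ m ∈ S, prob z m :=
    sum_le_sum fun m hm => prob_ge (h m hm).1 (h m hm).2.1 (h m hm).2.2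
  rw [sum_const, nsmul_eq_mul, mul_one_div] at h1
  exact h1

/-- an upper bound for all the numbers in question -/
def XX (n : ℕ) : ℕ := 2 * n * part n ^ 3

theorem logX_le {n : ℕ} (hn : 3 ≤ n) :
    Real.log (XX n) ≤ 30 * Real.sqrt n * Real.log n := by
  have hn3 : (3 : ℝ) ≤ n := by exact_mod_cast hn
  have hl1 : 1 ≤ Real.log n := by
    rw [Real.le_log_iff_exp_le (by linarith)]
    have := Real.exp_one_lt_d9
    linarith
  have hs1 : 1 ≤ Real.sqrt n := by
    rw [Real.one_le_sqrt]
    linarith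
  have hp0 : 0 < part n := lt_of_lt_of_le (by omega) (le_part (k := n))
  have hp1 : (1 : ℝ) ≤ part n := by exact_mod_cast hp0
  have e1 : Real.log (XX n) = Real.log 2 + Real.log n + 3 * Real.log (part n) := by
    unfold XX
    push_cast
    rw [Real.log_mul (by positivity) (by positivity), Real.log_mul (by norm_num) (by positivity),
      Real.log_pow]
    norm_num
  have e2 : Real.log (part n) ≤ 2 * (Nat.sqrt n + 1) * Real.log (n + 1) := by
    have h1 : ((part n : ℕ) : ℝ) ≤ ((n : ℝ) + 1) ^ (2 * (Nat.sqrt n + 1)) := by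
      exact_mod_cast part_le n
    calc Real.log (part n) ≤ Real.log (((n : ℝ) + 1) ^ (2 * (Nat.sqrt n + 1))) :=
          Real.log_le_log (by linarith) h1
      _ = 2 * (Nat.sqrt n + 1) * Real.log (n + 1) := by
          rw [Real.log_pow]
          push_cast
          ring
  have e3 : (Nat.sqrt n : ℝ) ≤ Real.sqrt n := Real.nat_sqrt_le_real_sqrt
  have e4 : Real.log ((n : ℝ) + 1) ≤ 2 * Real.log n := by
    have : Real.log ((n : ℝ) + 1) ≤ Real.log ((n : ℝ) ^ 2) :=
      Real.log_le_log (by linarith) (by nlinarith)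
    rw [Real.log_pow] at this
    exact_mod_cast this
  have e5 : Real.log 2 ≤ 1 := by
    have := Real.log_two_lt_d9
    linarith
  have e6 : 0 ≤ Real.log ((n : ℝ) + 1) := Real.log_nonneg (by linarith)
  have e7 : 2 * ((Nat.sqrt n : ℝ) + 1) * Real.log (n + 1) ≤
      2 * (2 * Real.sqrt n) * (2 * Real.log n) := by
    refine mul_le_mul ?_ e4 e6 (by positivity)
    linarith
  have e8 : Real.log n ≤ Real.sqrt n * Real.log n := by nlinarith
  rw [e1]
  nlinarith

/-- the comparison of sizes -/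
theorem asym : ∀ᶠ n : ℕ in atTop, 3 ≤ n ∧ 30 * Real.sqrt n * Real.log n ≤ n ∧
    (60 * Real.sqrt n * Real.log n) * Real.log n ≤ (n : ℝ) ^ (3 / 4 : ℝ) - 3 ∧
    (n : ℝ) ^ (3 / 4 : ℝ) ≤ n := by
  have h1 := (isLittleO_log_rpow_atTop (r := 1 / 16) (by norm_num)).bound
    (show (0 : ℝ) < 1 / 10 by norm_num)
  have h2 := tendsto_natCast_atTop_atTop.eventually h1
  filter_upwards [h2, eventually_ge_atTop 10] with n hn hn10
  have hn0 : (10 : ℝ) ≤ n := by exact_mod_cast hn10
  have hl0 : 0 ≤ Real.log n := Real.log_nonneg (by linarith)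
  obtain ⟨u, hu⟩ : ∃ u : ℝ, u = (n : ℝ) ^ (1 / 16 : ℝ) := ⟨_, rfl⟩
  have hu1 : 1 ≤ u := by
    rw [hu]
    exact Real.one_le_rpow (by linarith) (by norm_num)
  have hL : Real.log n ≤ u / 10 := by
    rw [Real.norm_of_nonneg hl0, Real.norm_of_nonneg (by positivity), ← hu] at hn
    linarith
  have e16 : u ^ 16 = n := by
    rw [hu, ← Real.rpow_natCast, ← Real.rpow_mul (by positivity)]
    norm_num
  have e12 : (n : ℝ) ^ (3 / 4 : ℝ) = u ^ 12 := by
    rw [hu, ← Real.rpow_natCast, ← Real.rpow_mul (by positivity)]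
    norm_num
  have e8 : Real.sqrt n = u ^ 8 := by
    rw [← e16]
    rw [show u ^ 16 = (u ^ 8) ^ 2 by ring]
    exact Real.sqrt_sq (by positivity)
  have hu12 : 10 ≤ u ^ 12 * 10 := by nlinarith [one_le_pow₀ hu1 (n := 12)]
  rw [e8, e12]
  have p8 : (0 : ℝ) ≤ u ^ 8 := by positivity
  have hLL : Real.log n * Real.log n ≤ u ^ 2 / 100 := by nlinarith
  have q1 : u ^ 9 ≤ u ^ 16 := pow_le_pow_right₀ hu1 (by norm_num)
  have q2 : u ^ 10 ≤ u ^ 12 := pow_le_pow_right₀ hu1 (by norm_num)
  have q3 : u ^ 12 ≤ u ^ 16 := pow_le_pow_right₀ hu1 (by norm_num)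
  have hLbig : (2 : ℝ) ≤ Real.log n := by
    rw [Real.le_log_iff_exp_le (by linarith)]
    have h := Real.exp_one_lt_d9
    have h' : Real.exp 2 = Real.exp 1 * Real.exp 1 := by
      rw [← Real.exp_add]
      norm_num
    rw [h']
    have h0 := Real.exp_pos 1
    nlinarith
  have hu20 : 20 ≤ u := by linarith
  refine ⟨by omega, ?_, ?_, ?_⟩
  · have : 30 * u ^ 8 * Real.log n ≤ 30 * u ^ 8 * (u / 10) :=
      mul_le_mul_of_nonneg_left hL (by positivity)
    have q4 : 3 * u ^ 9 ≤ u ^ 16 := by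
      have : u ^ 16 = u ^ 9 * u ^ 7 := by ring
      rw [this]
      have h7 : 3 ≤ u ^ 7 := by
        have := one_le_pow₀ hu1 (n := 6)
        nlinarith
      nlinarith [pow_pos (lt_of_lt_of_le one_pos hu1) 9]
    calc 30 * u ^ 8 * Real.log n ≤ 30 * u ^ 8 * (u / 10) := this
      _ = 3 * u ^ 9 := by ring
      _ ≤ u ^ 16 := q4
      _ = n := e16
  · have h5 : 60 * u ^ 8 * Real.log n * Real.log n ≤ 60 * u ^ 8 * (u ^ 2 / 100) := by
      rw [mul_assoc]
      exact mul_le_mul_of_nonneg_left hLL (by positivity)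
    have h6 : 60 * u ^ 8 * (u ^ 2 / 100) = 0.6 * u ^ 10 := by ring
    have h7 : 3 ≤ 0.4 * u ^ 12 := by
      have := one_le_pow₀ hu1 (n := 11)
      nlinarith
    linarith
  · rw [← e16]
    exact q3

/-- `k P + 1` -/
theorem crit {z : ℕ → ℕ} {S : ℕ → Finset ℕ} (h : ∀ᶠ n : ℕ in atTop,
    (∀ m ∈ S n, 3 ≤ m ∧ m ≤ XX n ∧ m.Coprime (primorial (z m))) ∧
      (n : ℝ) ^ (3 / 4 : ℝ) - 3 ≤ (S n).card) :
    ∀ᶠ n : ℕ in atTop, 2 * Real.log n ≤ ∑ m ∈ S n, prob z m := by
  filter_upwards [h, asym] with n hn ha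
  obtain ⟨h1, h2⟩ := hn
  obtain ⟨a1, a2, a3, a4⟩ := ha
  have hl := logX_le a1
  have hn3 : (3 : ℝ) ≤ n := by exact_mod_cast a1
  have hlog1 : 1 ≤ Real.log n := by
    rw [Real.le_log_iff_exp_le (by linarith)]
    have := Real.exp_one_lt_d9
    linarith
  have hs := sum_ge (z := z) (S := S n) (X := (XX n : ℝ)) fun m hm =>
    ⟨(h1 m hm).1, by exact_mod_cast (h1 m hm).2.1, (h1 m hm).2.2⟩
  refine le_trans ?_ hs
  have hX0 : 0 < Real.log (XX n) := by
    refine Real.log_pos ?_
    have hp0 : 0 < part n := lt_of_lt_of_le (by omega) (le_part (k := n))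
    have : 1 < XX n := by
      unfold XX
      have h3 : 0 < part n ^ 3 := by positivity
      nlinarith
    exact_mod_cast this
  rw [le_div_iff₀ hX0]
  calc 2 * Real.log n * Real.log (XX n) ≤ 2 * Real.log n * (30 * Real.sqrt n * Real.log n) :=
        mul_le_mul_of_nonneg_left hl (by positivity)
    _ = 60 * Real.sqrt n * Real.log n * Real.log n := by ring
    _ ≤ (n : ℝ) ^ (3 / 4 : ℝ) - 3 := a3
    _ ≤ (S n).card := h2

theorem two_le_part {n : ℕ} (hn : 2 ≤ n) : 2 ≤ part n := hn.trans le_part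

theorem q2a : ∀ᵐ ω ∂(Measure.infinitePi (coin 0)), ∀ᶠ n : ℕ in atTop,
    ∃ k, 1 ≤ k ∧ k < n ∧ ω (part k * (part n * (part n - 1)) + 1) = true := by
  have h := ae_hit 0 (fun n => (Ico 1 n).image fun k => part k * (part n * (part n - 1)) + 1)
    (crit ?_)
  · filter_upwards [h] with ω hω
    filter_upwards [hω] with n hn
    obtain ⟨m, hm, hm2⟩ := hn
    obtain ⟨k, hk, rfl⟩ := mem_image.1 hm
    rw [mem_Ico] at hk
    exact ⟨k, hk.1, hk.2, hm2⟩
  · filter_upwards [asym] with n ha
    obtain ⟨a1, a2, a3, a4⟩ := ha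
    have hp2 := two_le_part (n := n) (by omega)
    obtain ⟨p, hp⟩ : ∃ p, p + 2 = part n := ⟨part n - 2, by omega⟩
    refine ⟨fun m hm => ?_, ?_⟩
    · obtain ⟨k, hk, rfl⟩ := mem_image.1 hm
      rw [mem_Ico] at hk
      have hk1 : 1 ≤ part k := hk.1.trans le_part
      have hk2 : part k ≤ part n := (part_strict hk.1 hk.2).le
      have e1 : part n * (part n - 1) = (p + 2) * (p + 1) := by
        rw [← hp]
        simp
      refine ⟨?_, ?_, ?_⟩
      · rw [e1]
        nlinarith [Nat.zero_le (part k * p)]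
      · rw [e1]
        unfold XX
        rw [← hp] at hk2 ⊢
        have h1 : part k * ((p + 2) * (p + 1)) ≤ (p + 2) * ((p + 2) * (p + 1)) :=
          Nat.mul_le_mul_right _ hk2
        have h2 : (p + 2) * ((p + 2) * (p + 1)) + 1 ≤ (p + 2) ^ 3 := by nlinarith
        have h3 : (p + 2) ^ 3 ≤ 2 * n * (p + 2) ^ 3 := Nat.le_mul_of_pos_left _ (by omega)
        omega
      · show Nat.Coprime _ (primorial 0)
        rw [show primorial 0 = 1 by decide]
        exact Nat.coprime_one_right _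
    · rw [card_image_of_injOn]
      · rw [Nat.card_Ico, Nat.cast_sub (by omega)]
        push_cast
        linarith
      · intro j hj k hk hjk
        rw [mem_coe, mem_Ico] at hj hk
        have h1 : 0 < part n * (part n - 1) := Nat.mul_pos (by omega) (by omega)
        have h2 : part j * (part n * (part n - 1)) = part k * (part n * (part n - 1)) :=
          Nat.succ_injective hjk
        exact part_inj hj.1 hk.1 (Nat.eq_of_mul_eq_mul_right h1 h2)

theorem q2b : ∀ᵐ ω ∂(Measure.infinitePi (coin 0)), ∀ᶠ n : ℕ in atTop,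
    ∃ k, 1 ≤ k ∧ k < n ∧ ω (part k * (part n * (part n + 1)) - 1) = true := by
  have h := ae_hit 0 (fun n => (Ico 1 n).image fun k => part k * (part n * (part n + 1)) - 1)
    (crit ?_)
  · filter_upwards [h] with ω hω
    filter_upwards [hω] with n hn
    obtain ⟨m, hm, hm2⟩ := hn
    obtain ⟨k, hk, rfl⟩ := mem_image.1 hm
    rw [mem_Ico] at hk
    exact ⟨k, hk.1, hk.2, hm2⟩
  · filter_upwards [asym] with n ha
    obtain ⟨a1, a2, a3, a4⟩ := ha
    have hp2 := two_le_part (n := n) (by omega)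
    obtain ⟨p, hp⟩ : ∃ p, p = part n := ⟨_, rfl⟩
    have h6 : 6 ≤ part n * (part n + 1) := by nlinarith
    refine ⟨fun m hm => ?_, ?_⟩
    · obtain ⟨k, hk, rfl⟩ := mem_image.1 hm
      rw [mem_Ico] at hk
      have hk1 : 1 ≤ part k := hk.1.trans le_part
      have hk2 : part k ≤ part n := (part_strict hk.1 hk.2).le
      have h7 : 6 ≤ part k * (part n * (part n + 1)) := by nlinarith
      refine ⟨by omega, ?_, ?_⟩
      · unfold XX
        have h1 : part k * (part n * (part n + 1)) ≤ part n * (part n * (part n + 1)) :=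
          Nat.mul_le_mul_right _ hk2
        have h2 : part n * (part n * (part n + 1)) ≤ 2 * part n ^ 3 := by nlinarith
        have h3 : 2 * part n ^ 3 ≤ 2 * n * part n ^ 3 := by
          have : 1 ≤ n := by omega
          nlinarith [Nat.mul_le_mul_right (2 * part n ^ 3) this]
        omega
      · show Nat.Coprime _ (primorial 0)
        rw [show primorial 0 = 1 by decide]
        exact Nat.coprime_one_right _
    · rw [card_image_of_injOn]
      · rw [Nat.card_Ico, Nat.cast_sub (by omega)]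
        push_cast
        linarith
      · intro j hj k hk hjk
        rw [mem_coe, mem_Ico] at hj hk
        have hj1 : 1 ≤ part j := hj.1.trans le_part
        have hk1 : 1 ≤ part k := hk.1.trans le_part
        have h1 : 0 < part n * (part n + 1) := Nat.mul_pos (by omega) (by omega)
        have hja : 0 < part j * (part n * (part n + 1)) := Nat.mul_pos hj1 h1
        have hka : 0 < part k * (part n * (part n + 1)) := Nat.mul_pos hk1 h1
        have h2 : part j * (part n * (part n + 1)) = part k * (part n * (part n + 1)) := by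
          have h3 : part j * (part n * (part n + 1)) - 1 = part k * (part n * (part n + 1)) - 1 :=
            hjk
          omega
        exact part_inj hj.1 hk.1 (Nat.eq_of_mul_eq_mul_right h1 h2)

theorem W_le {z : ℕ → ℕ} (hz : ∀ᶠ m : ℕ in atTop, (z m : ℝ) ≤ Real.log (Real.log m) / 8) :
    ∀ᶠ n : ℕ in atTop,
      ((primorial ((range (XX n + 1)).sup z) : ℕ) : ℝ) ≤ (n : ℝ) ^ (1 / 4 : ℝ) := by
  obtain ⟨M, hM⟩ := eventually_atTop.1 hz
  obtain ⟨c, hc⟩ : ∃ c : ℕ, c = (range (M + 3)).sup z := ⟨_, rfl⟩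
  have hlog : Tendsto (fun n : ℕ => Real.log n) atTop atTop :=
    Real.tendsto_log_atTop.comp tendsto_natCast_atTop_atTop
  filter_upwards [asym, hlog.eventually_ge_atTop (20 * (c : ℝ))] with n ha hn
  obtain ⟨a1, a2, a3, a4⟩ := ha
  have hn3 : (3 : ℝ) ≤ n := by exact_mod_cast a1
  have hl0 : 0 ≤ Real.log n := Real.log_nonneg (by linarith)
  have hX := (logX_le a1).trans a2
  have h1 : ∀ m ∈ range (XX n + 1), (z m : ℝ) ≤ c + Real.log n / 8 := by
    intro m hm
    rw [mem_range] at hm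
    rcases lt_or_ge m (M + 3) with h | h
    · have : z m ≤ c := by
        rw [hc]
        exact le_sup (f := z) (mem_range.2 h)
      have h' : (z m : ℝ) ≤ c := by exact_mod_cast this
      linarith
    · have h2 := hM m (by omega)
      have hm3 : (3 : ℝ) ≤ m := by
        have : 3 ≤ m := by omega
        exact_mod_cast this
      have h3 : Real.log m ≤ n := by
        refine le_trans (Real.log_le_log (by linarith) ?_) hX
        have : m ≤ XX n := by omega
        exact_mod_cast this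
      have h4 : Real.log (Real.log m) ≤ Real.log n :=
        Real.log_le_log (Real.log_pos (by linarith)) h3
      have hc0 : (0 : ℝ) ≤ c := Nat.cast_nonneg c
      linarith
  have h2 : (((range (XX n + 1)).sup z : ℕ) : ℝ) ≤ c + Real.log n / 8 := by
    have h3 : (range (XX n + 1)).sup z ≤ ⌊(c : ℝ) + Real.log n / 8⌋₊ :=
      Finset.sup_le fun m hm => Nat.le_floor (h1 m hm)
    exact (Nat.le_floor_iff (by positivity)).1 h3
  obtain ⟨Z, hZ⟩ : ∃ Z : ℕ, Z = (range (XX n + 1)).sup z := ⟨_, rfl⟩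
  rw [← hZ] at h2 ⊢
  have h3 : ((primorial Z : ℕ) : ℝ) ≤ 4 ^ Z := by exact_mod_cast primorial_le_four_pow Z
  refine h3.trans ?_
  have hl4 : Real.log 4 ≤ 1.4 := by
    rw [show (4 : ℝ) = 2 ^ 2 by norm_num, Real.log_pow]
    have := Real.log_two_lt_d9
    push_cast
    linarith
  have hl4' : 0 ≤ Real.log 4 := Real.log_nonneg (by norm_num)
  rw [← Real.log_le_log_iff (by positivity) (Real.rpow_pos_of_pos (by linarith) _), Real.log_pow,
    Real.log_rpow (by linarith)]
  have h5 : (Z : ℝ) * Real.log 4 ≤ (c + Real.log n / 8) * 1.4 :=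
    mul_le_mul h2 hl4 hl4' (by positivity)
  nlinarith

theorem q1 (z : ℕ → ℕ) (hz : ∀ᶠ m : ℕ in atTop, (z m : ℝ) ≤ Real.log (Real.log m) / 8) :
    ∀ᵐ ω ∂(Measure.infinitePi (coin z)), ∀ᶠ n : ℕ in atTop,
      ∃ k, 1 ≤ k ∧ k < n ∧ ω (k * (part n * (part n - 1)) + 1) = true := by
  obtain ⟨W, hW⟩ : ∃ W : ℕ → ℕ, W = fun n => primorial ((range (XX n + 1)).sup z) := ⟨_, rfl⟩
  have hWpos : ∀ n, 0 < W n := fun n => by
    rw [hW]
    exact primorial_pos _
  have h := ae_hit z (fun n => (Icc 1 ((n - 1) / W n)).image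
    fun j => W n * j * (part n * (part n - 1)) + 1) (crit ?_)
  · filter_upwards [h] with ω hω
    filter_upwards [hω, eventually_ge_atTop 1] with n hn hn1
    obtain ⟨m, hm, hm2⟩ := hn
    obtain ⟨j, hj, rfl⟩ := mem_image.1 hm
    rw [mem_Icc] at hj
    refine ⟨W n * j, Nat.mul_pos (hWpos n) hj.1, ?_, hm2⟩
    have h1 : W n * j ≤ n - 1 := by
      have := Nat.mul_le_mul_left (W n) hj.2
      exact this.trans (Nat.mul_div_le _ _)
    omega
  · filter_upwards [asym, W_le hz] with n ha hWn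
    obtain ⟨a1, a2, a3, a4⟩ := ha
    have hWn' : (W n : ℝ) ≤ (n : ℝ) ^ (1 / 4 : ℝ) := by
      rw [hW]
      exact hWn
    have hp2 := two_le_part (n := n) (by omega)
    have hP : 2 ≤ part n * (part n - 1) := by
      have : 1 ≤ part n - 1 := by omega
      nlinarith
    have hP2 : part n * (part n - 1) + 1 ≤ part n ^ 3 := by
      obtain ⟨p, hp⟩ : ∃ p, p + 2 = part n := ⟨part n - 2, by omega⟩
      rw [← hp]
      have e1 : p + 2 - 1 = p + 1 := rfl
      have e2 : (p + 2) ^ 3 = (p + 2) * (p + 1) + 1 + (p ^ 3 + 5 * p ^ 2 + 9 * p + 5) := by ring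
      rw [e1, e2]
      exact Nat.le_add_right _ _
    refine ⟨fun m hm => ?_, ?_⟩
    · obtain ⟨j, hj, rfl⟩ := mem_image.1 hm
      rw [mem_Icc] at hj
      have hk1 : 1 ≤ W n * j := Nat.mul_pos (hWpos n) hj.1
      have hk2 : W n * j ≤ n := by
        have := (Nat.mul_le_mul_left (W n) hj.2).trans (Nat.mul_div_le _ _)
        omega
      have hle : W n * j * (part n * (part n - 1)) + 1 ≤ XX n := by
        unfold XX
        calc W n * j * (part n * (part n - 1)) + 1 ≤ n * (part n * (part n - 1)) + n :=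
              Nat.add_le_add (Nat.mul_le_mul_right _ hk2) (by omega)
          _ = n * (part n * (part n - 1) + 1) := by ring
          _ ≤ n * part n ^ 3 := Nat.mul_le_mul_left _ hP2
          _ ≤ 2 * n * part n ^ 3 := by nlinarith [Nat.zero_le (n * part n ^ 3)]
      refine ⟨?_, hle, ?_⟩
      · have : 1 * 2 ≤ W n * j * (part n * (part n - 1)) := Nat.mul_le_mul hk1 hP
        omega
      · refine Nat.Coprime.coprime_dvd_right (m := W n) ?_ ?_
        · rw [hW]
          refine Finset.prod_dvd_prod_of_subset _ _ _ ?_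
          intro q hq
          rw [mem_filter, mem_range] at hq ⊢
          refine ⟨lt_of_lt_of_le hq.1 (Nat.succ_le_succ ?_), hq.2⟩
          refine le_sup (f := z) (mem_range.2 ?_)
          have := hle
          rw [hW] at this
          exact Nat.lt_succ_of_le this
        · rw [mul_assoc, add_comm]
          exact (Nat.coprime_add_mul_left_left 1 (W n) _).2 (Nat.coprime_one_left _)
    · rw [card_image_of_injOn]
      · rw [Nat.card_Icc, Nat.add_sub_cancel]
        have h1 : ((n - 1 : ℕ) : ℝ) / (W n : ℝ) - 1 ≤ (((n - 1) / W n : ℕ) : ℝ) := by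
          have := Nat.lt_div_mul_add (a := n - 1) (hWpos n)
          have h2 : ((n - 1 : ℕ) : ℝ) < (((n - 1) / W n : ℕ) : ℝ) * W n + W n := by
            exact_mod_cast this
          have hW0 : (0 : ℝ) < W n := by exact_mod_cast hWpos n
          have h3 : ((n - 1 : ℕ) : ℝ) / (W n : ℝ) ≤ (((n - 1) / W n : ℕ) : ℝ) + 1 := by
            rw [div_le_iff₀ hW0]
            nlinarith
          linarith
        refine le_trans ?_ h1
        have hn3 : (3 : ℝ) ≤ n := by exact_mod_cast a1
        have hW0 : (0 : ℝ) < W n := by exact_mod_cast hWpos n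
        have hr : (0 : ℝ) < (n : ℝ) ^ (1 / 4 : ℝ) := Real.rpow_pos_of_pos (by linarith) _
        have hr1 : 1 ≤ (n : ℝ) ^ (1 / 4 : ℝ) := Real.one_le_rpow (by linarith) (by norm_num)
        have e : (n : ℝ) ^ (3 / 4 : ℝ) * (n : ℝ) ^ (1 / 4 : ℝ) = n := by
          rw [← Real.rpow_add (by linarith)]
          norm_num
        have h4 : (n : ℝ) ^ (3 / 4 : ℝ) - 1 ≤ ((n - 1 : ℕ) : ℝ) / (W n : ℝ) := by
          rw [le_div_iff₀ hW0, Nat.cast_sub (by omega), Nat.cast_one]
          have h5 : 0 ≤ (n : ℝ) ^ (3 / 4 : ℝ) - 1 := by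
            have := Real.one_le_rpow (x := (n : ℝ)) (z := 3 / 4) (by linarith) (by norm_num)
            linarith
          calc ((n : ℝ) ^ (3 / 4 : ℝ) - 1) * W n
              ≤ ((n : ℝ) ^ (3 / 4 : ℝ) - 1) * (n : ℝ) ^ (1 / 4 : ℝ) :=
                mul_le_mul_of_nonneg_left hWn' h5
            _ = n - (n : ℝ) ^ (1 / 4 : ℝ) := by
                rw [sub_mul, e, one_mul]
            _ ≤ n - 1 := by linarith
        linarith
      · intro i _ j _ hij
        have h1 : W n * i * (part n * (part n - 1)) = W n * j * (part n * (part n - 1)) :=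
          Nat.succ_injective hij
        have h2 := Nat.eq_of_mul_eq_mul_right (by omega) h1
        exact Nat.eq_of_mul_eq_mul_left (hWpos n) h2

end Pool.Agent.PM40
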