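import Mathlib

/-!
# PM40/Part: the partition numbers grow slower than `exp (n ^ (1/2 + ε))` and are increasing
-/

set_option autoImplicit false

namespace Pool.Agent.PM40

open Finset

/-- the number of partitions of `n` -/
def part (n : ℕ) : ℕ := Fintype.card (Nat.Partition n)

theorem exists_fn (n t : ℕ) (M : Multiset ℕ) (hM : Multiset.card M = t) (hn : ∀ x ∈ M, x ≤ n) :
    ∃ f : Fin t → Fin (n + 1), (List.ofFn (fun i => (f i : ℕ)) : Multiset ℕ) = M := by
  induction M using Quotient.inductionOn with
  | h l =>
    have hl : l.length = t := by simpa using hM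
    subst hl
    refine ⟨fun i => ⟨l.get i, Nat.lt_succ_of_le (hn _ ?_)⟩, ?_⟩
    · exact List.get_mem l i
    · simp

theorem part_le (n : ℕ) : part n ≤ (n + 1) ^ (2 * (Nat.sqrt n + 1)) := by
  classical
  obtain ⟨s, hs⟩ : ∃ s : ℕ, s = Nat.sqrt n + 1 := ⟨_, rfl⟩
  have hs2 : n < s * s := by
    rw [hs]
    exact Nat.lt_succ_sqrt n
  rw [← hs]
  -- the large parts
  have hbig : ∀ P : Nat.Partition n, Multiset.card (P.parts.filter (fun x => s < x)) ≤ s := by
    intro P
    have h1 : Multiset.card (P.parts.filter (fun x => s < x)) * s ≤
        (P.parts.filter (fun x => s < x)).sum := by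
      rw [← smul_eq_mul]
      refine Multiset.card_nsmul_le_sum fun x hx => ?_
      exact (Multiset.mem_filter.1 hx).2.le
    have h2 : (P.parts.filter (fun x => s < x)).sum ≤ n := by
      have h3 : (P.parts.filter (fun x => s < x)).sum +
          (P.parts.filter (fun x => ¬ s < x)).sum = n := by
        rw [← Multiset.sum_add, Multiset.filter_add_not, P.parts_sum]
      omega
    by_contra hc
    push Not at hc
    have h4 : s * s ≤ Multiset.card (P.parts.filter (fun x => s < x)) * s :=
      Nat.mul_le_mul_right s hc.le
    omega
  have hmem : ∀ P : Nat.Partition n, ∀ x ∈ P.parts, x ≤ n := by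
    intro P x hx
    have := Multiset.single_le_sum (fun y _ => Nat.zero_le y) x hx
    rwa [P.parts_sum] at this
  have h1 : ∀ P : Nat.Partition n, ∃ f : Fin s → Fin (n + 1),
      (List.ofFn (fun i => (f i : ℕ)) : Multiset ℕ) =
        P.parts.filter (fun x => s < x) +
          Multiset.replicate (s - Multiset.card (P.parts.filter (fun x => s < x))) 0 := by
    intro P
    refine exists_fn n s _ ?_ fun x hx => ?_
    · rw [Multiset.card_add, Multiset.card_replicate]
      have := hbig P
      omega
    · rcases Multiset.mem_add.1 hx with h | h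
      · exact hmem P x (Multiset.mem_filter.1 h).1
      · rw [Multiset.eq_of_mem_replicate h]
        exact Nat.zero_le _
  choose F hF using h1
  have hcount : ∀ (P : Nat.Partition n) (x : ℕ), 0 < x → Multiset.count x P.parts < n + 1 := by
    intro P x hx
    have h2 : Multiset.count x P.parts * x ≤ n := by
      have h3 : Multiset.replicate (Multiset.count x P.parts) x ≤ P.parts :=
        Multiset.le_count_iff_replicate_le.1 le_rfl
      obtain ⟨R, hR⟩ := Multiset.le_iff_exists_add.1 h3
      have h4 := congrArg Multiset.sum hR
      rw [P.parts_sum, Multiset.sum_add, Multiset.sum_replicate, smul_eq_mul] at h4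
      omega
    have h5 : Multiset.count x P.parts ≤ Multiset.count x P.parts * x :=
      Nat.le_mul_of_pos_right _ hx
    omega
  let φ : Nat.Partition n → (Fin s → Fin (n + 1)) × (Fin s → Fin (n + 1)) := fun P =>
    (fun i => ⟨Multiset.count ((i : ℕ) + 1) P.parts, hcount P _ (Nat.succ_pos _)⟩, F P)
  have hφ : Function.Injective φ := by
    intro P Q hPQ
    have e1 : (φ P).1 = (φ Q).1 := by rw [hPQ]
    have e2 : F P = F Q := congrArg Prod.snd hPQ
    have e3 : P.parts.filter (fun x => s < x) = Q.parts.filter (fun x => s < x) := by
      have h2 := hF P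
      have h3 := hF Q
      rw [e2, h3] at h2
      have h4 := congrArg (Multiset.filter (fun x => s < x)) h2
      have h5 : ∀ k : ℕ, Multiset.filter (fun x => s < x) (Multiset.replicate k 0) = 0 := by
        intro k
        refine Multiset.filter_eq_nil.2 fun x hx => ?_
        rw [Multiset.eq_of_mem_replicate hx]
        omega
      rw [Multiset.filter_add, Multiset.filter_add, h5, h5, add_zero, add_zero,
        Multiset.filter_filter, Multiset.filter_filter] at h4
      simpa using h4.symm
    refine Nat.Partition.ext ?_
    ext x
    rcases Nat.eq_zero_or_pos x with hx | hx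
    · rw [hx, Multiset.count_eq_zero_of_notMem, Multiset.count_eq_zero_of_notMem]
      · exact fun h => lt_irrefl _ (Q.parts_pos h)
      · exact fun h => lt_irrefl _ (P.parts_pos h)
    · rcases lt_or_ge s x with h | h
      · have := congrArg (Multiset.count x) e3
        rwa [Multiset.count_filter_of_pos h, Multiset.count_filter_of_pos h] at this
      · have h6 := congrFun e1 ⟨x - 1, by omega⟩
        have h7 := congrArg Fin.val h6
        have h8 : x - 1 + 1 = x := by omega
        simp only [φ, h8] at h7
        exact h7
  have hc := Fintype.card_le_of_injective φ hφ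
  unfold part
  refine hc.trans ?_
  rw [Fintype.card_prod, Fintype.card_fun, Fintype.card_fin, Fintype.card_fin, ← pow_add, two_mul]

theorem part_lt {k : ℕ} (hk : 1 ≤ k) : part k < part (k + 1) := by
  classical
  let ι : Nat.Partition k → Nat.Partition (k + 1) := fun P =>
    ⟨1 ::ₘ P.parts, by
      intro i hi
      rcases Multiset.mem_cons.1 hi with h | h
      · rw [h]
        exact one_pos
      · exact P.parts_pos h, by
      rw [Multiset.sum_cons, P.parts_sum, add_comm]⟩
  refine Fintype.card_lt_of_injective_not_surjective ι ?_ ?_
  · intro P Q h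
    have h1 : (1 ::ₘ P.parts) = 1 ::ₘ Q.parts := congrArg Nat.Partition.parts h
    exact Nat.Partition.ext ((Multiset.cons_inj_right 1).1 h1)
  · intro hs
    obtain ⟨P, hP⟩ := hs (Nat.Partition.indiscrete (k + 1))
    have h1 : (1 ::ₘ P.parts) = (Nat.Partition.indiscrete (k + 1)).parts :=
      congrArg Nat.Partition.parts hP
    rw [Nat.Partition.indiscrete_parts (Nat.succ_ne_zero k)] at h1
    have h2 : (1 : ℕ) ∈ ({k + 1} : Multiset ℕ) := by
      rw [← h1]
      exact Multiset.mem_cons_self 1 _
    rw [Multiset.mem_singleton] at h2
    omega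

theorem part_strict {j k : ℕ} (hj : 1 ≤ j) (hjk : j < k) : part j < part k := by
  induction k, hjk using Nat.le_induction with
  | base => exact part_lt hj
  | succ m hm ih => exact ih.trans (part_lt (by omega))

theorem part_inj {j k : ℕ} (hj : 1 ≤ j) (hk : 1 ≤ k) (h : part j = part k) : j = k := by
  rcases lt_trichotomy j k with h1 | h1 | h1
  · exact absurd h (part_strict hj h1).ne
  · exact h1
  · exact absurd h.symm (part_strict hk h1).ne

theorem le_part {k : ℕ} : k ≤ part k := by
  rcases Nat.eq_zero_or_pos k with h | h
  · rw [h]
    exact Nat.zero_le _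
  · induction k, h using Nat.le_induction with
    | base => exact Fintype.card_pos
    | succ m hm ih =>
      have h1 := part_lt hm
      omega

end Pool.Agent.PM40
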